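import Pool.Agent.Q46.SL.Tools
import Pool.Agent.Q46.SL.Sidon

/-!
# Systems of linear forms with coefficients up to `n ^ B` at all coordinates of dense Sidon sets

The problem asks for a bound, polynomial in the coefficients, for the least `x` such that all the forms `α_j x + β_j`, `j < l`,
are primes. For almost primes we find many such `x ≤ n` for ALL systems of forms without local obstruction and with coefficients
up to `n ^ B`, `B` arbitrary, even inside an arbitrary dense Sidon set.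

EVERY Sidon set `A` of vectors in `{1, ..., n} ^ r` of nearly maximal size, `|A|² ≥ n ^ r (1 - n ^ (-δ))`, has at least
`cc |A| / (log n) ^ (r (m + l))` members ALL of whose coordinates have the property (for `r = 2` this includes all Costas arrays). Here the property is: all `α_j x + β_j` have at most `R` prime factors, all larger than `n ^ κ`.

In addition the numbers avoid arbitrary residue classes, at most `m` classes `E q` modulo each prime `q ≤ z`, as long as there is no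
local obstruction; `m = 0` is the case without classes. The exponent `κ`, the number `R` and the constant `cc` do not depend on the
classes.

Design and proof: helper46 (modules `Pool.Agent.Q46.SV.*`, `Pool.Agent.Q46.SL.*`): the vectors of the residues in question are
equidistributed modulo all small integers with a power saving, by bounds for exponential sums; the fundamental lemma of the
sieve is applied to the vectors.
-/

set_option autoImplicit false

namespace Pool.Agent.Results.MP_746f10_nt.DenseSidonSets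

open Finset Polynomial
open Pool.Agent.Q46.SL hiding Almost

/-- `n` is not zero and has at most `R` prime factors (counted with multiplicity), all larger than `z` -/
def Almost (z : ℝ) (R : ℕ) (n : ℤ) : Prop :=
  n ≠ 0 ∧ n.natAbs.primeFactorsList.length ≤ R ∧ ∀ q : ℕ, q.Prime → (q : ℤ) ∣ n → z < q

/-- `x` is positive, all `α_j x + β_j` have at most `R` prime factors, all larger than `z`, and `x` avoids the classes `E q`, `q ≤ z` -/
def Good {l : ℕ} (α β : Fin l → ℤ) (z : ℝ) (R : ℕ) (E : ℕ → Finset ℕ) (x : ℤ) : Prop :=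
  0 < x ∧ (∀ j, Almost z R (α j * x + β j)) ∧ ∀ q : ℕ, q.Prime → (q : ℝ) ≤ z → (x % q).toNat ∉ E q

/-- `E q` has at most `m` elements, and some residue `a` outside `E q` has `q ∤ α_j a + β_j` for all `j` -/
def Adm {l : ℕ} (α β : Fin l → ℤ) (m : ℕ) (E : ℕ → Finset ℕ) : Prop :=
  ∀ q : ℕ, q.Prime → (E q).card ≤ m ∧ ∃ a < q, a ∉ E q ∧ ∀ j, ¬ (q : ℤ) ∣ α j * a + β j

/-- the polynomials and the classes -/
noncomputable def sysE {l : ℕ} (α β : Fin l → ℤ) (m : ℕ) (E : ℕ → Finset ℕ) (hE : Adm α β m E) : PE l m l where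
  f := fun j => C (α j) * X + C (β j)
  E := E
  deg := by
    have h1 : ∀ j : Fin l, (C (α j) * X + C (β j) : ℤ[X]).natDegree ≤ 1 := fun j => by compute_degree
    refine (sum_le_sum fun j _ => h1 j).trans ?_
    simp
  adm := by
    intro q hq
    obtain ⟨h1, a, ha, haE, h2⟩ := hE q hq
    refine ⟨h1, a, ha, haE, fun j => ?_⟩
    simpa using h2 j

lemma good_of {l : ℕ} {α β : Fin l → ℤ} {m B : ℕ} {E : ℕ → Finset ℕ} (hE : Adm α β m E) {κ M : ℝ} (hM : (2 : ℝ) ≤ M)
    (hh : ∀ j, |(α j : ℝ)| ≤ M ^ B ∧ |(β j : ℝ)| ≤ M ^ B) {x : ℤ} (hN : Near (B + 1) (sysE α β m E hE) κ M x) (hx : (x : ℝ) ≤ M) :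
    Good α β (M ^ κ) ⌊(((B + 1) : ℕ) + (l : ℕ) + 1 : ℝ) / κ⌋₊ E x := by
  obtain ⟨h0, h12⟩ := hN
  obtain ⟨h1, h2⟩ := h12 (by
    intro j
    have hB : (1 : ℝ) ≤ M ^ B := one_le_pow₀ (by linarith)
    refine cb_mono (cb_add (cb_CX (α j)) (cb_C (β j))) ?_
    rw [pow_succ]
    have h3 := (hh j).1
    have h4 := (hh j).2
    nlinarith) hx
  refine ⟨h0, fun j => ?_, h2⟩
  simpa [sysE, Almost, Pool.Agent.Q46.SL.Almost] using h1 j

/-- Sidon sets of vectors of integers -/
def IsSidon {r : ℕ} (A : Finset (Fin r → ℤ)) : Prop :=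
  ∀ a ∈ A, ∀ b ∈ A, ∀ c ∈ A, ∀ d ∈ A, a + b = c + d → (a = c ∧ b = d) ∨ (a = d ∧ b = c)

/-- Systems of linear forms with large coefficients are almost prime at all the coordinates `x` of many members of EVERY dense Sidon set. -/
theorem result (l B m : ℕ) (r : ℕ) (hr : 1 ≤ r) (δ : ℝ) (hδ : 0 < δ) :
    ∃ κ : ℝ, 0 < κ ∧ ∃ cc : ℝ, 0 < cc ∧ ∃ R n₀ : ℕ, ∀ n : ℕ, n₀ ≤ n → ∀ α β : Fin l → ℤ, (∀ j, |(α j : ℝ)| ≤ (n : ℝ) ^ B ∧ |(β j : ℝ)| ≤ (n : ℝ) ^ B) → ∀ E : ℕ → Finset ℕ, Adm α β m E → 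
      ∀ A : Finset (Fin r → ℤ), IsSidon A → (∀ a ∈ A, ∀ j, 1 ≤ a j ∧ a j ≤ n) →
        (n : ℝ) ^ r * (1 - (n : ℝ) ^ (-δ)) ≤ (A.card : ℝ) ^ 2 →
        ∃ G ⊆ A, cc * (A.card : ℝ) / Real.log n ^ (r * (m + l)) ≤ G.card ∧
          ∀ a ∈ G, ∀ j, Good α β ((n : ℝ) ^ κ) R E (a j) := by
  classical
  obtain ⟨κ, hκ, cc, hcc, n₀, h⟩ := Pool.Agent.Q46.SL.sidon_main (Near (B + 1) : PE l m l → ℝ → ℝ → ℤ → Prop)
    (lg (m + l)) (fun r _ => csN l m l (B + 1) r) r hr (min δ (1 / 4)) (lt_min hδ (by norm_num)) (min_le_right _ _)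
  refine ⟨κ, hκ, cc, hcc, ⌊(((B + 1) : ℕ) + (l : ℕ) + 1 : ℝ) / κ⌋₊, max 2 (max n₀ 1), ?_⟩
  intro n hn α β ht E hE A hA hAn hAc
  have hpr : (2 : ℝ) ≤ n := by exact_mod_cast (le_max_left _ _).trans hn
  have hn0 : n₀ ≤ n := ((le_max_left _ _).trans (le_max_right _ _)).trans hn
  have hn1 : (1 : ℝ) ≤ n := by exact_mod_cast ((le_max_right _ _).trans (le_max_right _ _)).trans hn
  have h1 : (n : ℝ) ^ (-δ) ≤ (n : ℝ) ^ (-(min δ (1 / 4))) :=
    Real.rpow_le_rpow_of_exponent_le hn1 (by linarith [min_le_left δ (1 / 4)])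
  have h2 : (n : ℝ) ^ r * (1 - (n : ℝ) ^ (-(min δ (1 / 4)))) ≤ (A.card : ℝ) ^ 2 :=
    (mul_le_mul_of_nonneg_left (by linarith) (by positivity)).trans hAc
  have key := h n hn0 (sysE α β m E hE) A hA hAn h2
  refine ⟨A.filter (fun v => ∀ j, Near (B + 1) (sysE α β m E hE) κ n (v j)), filter_subset _ _,
    le_trans (cnt le_rfl (Nat.cast_nonneg _) (log0 n) _ _) key, ?_⟩
  intro a ha j
  rw [mem_filter] at ha
  exact good_of hE hpr ht (ha.2 j) (by exact_mod_cast (hAn a ha.1 j).2)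

end Pool.Agent.Results.MP_746f10_nt.DenseSidonSets
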