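import Pool.Agent.Y816.PD.UniL

/-!
# The uniform almost prime k-tuplets theorem with `n` as small as any power of the coefficients and with restricted digits

Let `g ≥ 2` be a base and `K` a large number of digits. For every `i < K` let `A i` be an arbitrary non-empty set of digits. Nothing
is assumed about these sets except that they are not too small on average: the number `|A 0| ⋯ |A (K - 1)|` of the integers
`n < g ^ K` whose `i`-th digit belongs to `A i` for all `i < K` is at least `exp (- c K) g ^ K`, where `c > 0` depends only on `k` and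
`E`. (For example, a digit is missing everywhere and the base is large; or the digits at an arbitrary set of at most `c' K` places
are prescribed.)

Let `a_i x + b_i`, `i < k`, be ANY admissible set of linear forms with leading coefficients `a_i ≤ g ^ (E K)`; here `E` is arbitrary,
so that the size `g ^ K` of the variable `n` is as small as an arbitrarily small power `1 / E` of the coefficients (which is essential
here: in the question `n` may be a large power of the coefficients). The numbers `n < g ^ K` with digits in the sets `A i` for which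
all `a_i n + b_i` have at most `r` prime factors, all greater than `g ^ (K / r)`, are counted up to a constant factor: their number is
at least `κ V |A 0| ⋯ |A (K - 1)|`, `V` being the product over the primes `p ≤ g ^ K` of `1 - ω(p) / p`, where `ω(p)` is the number of
the residue classes `n` modulo `p` for which `p` divides one of the `a_i n + b_i` (the expected order; `V > 0`, so that there is always
such an `n`), unless there is an obvious obstruction (no digit `d` in `A 0` such that all `a_i d + b_i` are prime to `g`). The number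
of the `n` with these digits for which all `a_i n + b_i` are primes is at most `C V |A 0| ⋯ |A (K - 1)|`. The constants `κ`, `C`
depend only on `k`, `E`, `r` and `g`; they are independent of the forms and of the sets `A i`.

Proof. The theorem on almost prime values of polynomials at integers with restricted digits, uniform in the polynomial, of the
starting library (`Pool.Agent.Y816.PD.uni_fun`), applied to the product of the forms.
-/

set_option autoImplicit false

namespace Pool.Agent.Results.MP_746f10_nt.RestrictedDigits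

open Filter Finset

/-- The `i`-th digit of `n` in base `g` (counted from the right, beginning with `0`) belongs to `A i` for all `i < K`. -/
def HasDigits (g K : ℕ) (A : ℕ → Finset ℕ) (n : ℕ) : Prop := ∀ i < K, n / g ^ i % g ∈ A i

/-- The number of the choices of `K` digits in the sets `A i`. -/
def choices (K : ℕ) (A : ℕ → Finset ℕ) : ℕ := ∏ i ∈ range K, (A i).card

/-- `m` has at most `r` prime factors (counted with multiplicity), and all of them are larger than `y ^ (1 / r)`. -/
def AlmostPrime (y r m : ℕ) : Prop :=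
  (∀ p : ℕ, p.Prime → p ∣ m → y < p ^ r) ∧ m.primeFactorsList.length ≤ r

/-- Admissible sets of linear forms, as in the question. -/
def Admissible {k : ℕ} (a b : Fin k → ℕ) : Prop :=
  (∀ i, 1 ≤ b i ∧ b i < a i) ∧ ∀ p : ℕ, p.Prime → ∃ n : ℕ, ∀ i, ¬ p ∣ a i * n + b i

open Classical in
/-- The number of the residue classes `n` modulo `p` for which `p` divides one of the `a i * n + b i`. -/
noncomputable def omega {k : ℕ} (a b : Fin k → ℕ) (p : ℕ) : ℕ :=
  ((range p).filter fun n => ∃ i, p ∣ a i * n + b i).card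

/-- The product of `1 - ω(p) / p` over the primes `p ≤ y`. -/
noncomputable def density {k : ℕ} (a b : Fin k → ℕ) (y : ℕ) : ℝ :=
  ∏ p ∈ (Icc 1 y).filter Nat.Prime, (1 - (omega a b p : ℝ) / p)

open Classical in
/-- The number of the `n < g ^ K` with the digits `A i` which have the property `P`. -/
noncomputable def count (g K : ℕ) (A : ℕ → Finset ℕ) (P : ℕ → Prop) : ℕ :=
  ((range (g ^ K)).filter fun n => HasDigits g K A n ∧ P n).card

lemma ND_le_count {g K : ℕ} {A : ℕ → Finset ℕ} {S : Set ℕ} {P : ℕ → Prop} (h : ∀ n < g ^ K, n ∈ S → P n) :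
    Pool.Agent.Y816.PD.ND g K A S ≤ count g K A P := by
  classical
  unfold Pool.Agent.Y816.PD.ND count
  apply card_le_card
  intro n hn
  have h1 := mem_filter.1 hn
  exact mem_filter.2 ⟨h1.1, h1.2.1, h n (mem_range.1 h1.1) h1.2.2⟩

lemma count_le_ND {g K : ℕ} {A : ℕ → Finset ℕ} {S : Set ℕ} {P : ℕ → Prop} (h : ∀ n < g ^ K, P n → n ∈ S) :
    count g K A P ≤ Pool.Agent.Y816.PD.ND g K A S := by
  classical
  unfold Pool.Agent.Y816.PD.ND count
  apply card_le_card
  intro n hn
  have h1 := mem_filter.1 hn
  exact mem_filter.2 ⟨h1.1, h1.2.1, h n (mem_range.1 h1.1) h1.2.2⟩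

open Pool.Agent.Y816.PD in
lemma choices_eq (K : ℕ) (A : ℕ → Finset ℕ) : (choices K A : ℝ) = NA K A := by
  unfold choices NA
  push_cast
  rfl

lemma dvd_iff {k : ℕ} (a b : Fin k → ℕ) {p : ℕ} (hp : p.Prime) (n : ℕ) :
    (p : ℤ) ∣ ((∏ i, (a i * n + b i) : ℕ) : ℤ) ↔ ∃ i, p ∣ a i * n + b i := by
  rw [Int.natCast_dvd_natCast, (Nat.prime_iff.1 hp).dvd_finsetProd_iff]
  simp

open Pool.Agent.Y816.PD in
lemma density_eq {k : ℕ} (a b : Fin k → ℕ) (y : ℕ) :
    WG (fun n : ℕ => ((∏ i, (a i * n + b i) : ℕ) : ℤ)) y = density a b y := by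
  classical
  unfold WG density omega
  apply prod_congr rfl
  intro p hp
  rw [mem_filter] at hp
  have h1 : (range p).filter (fun n : ℕ => (p : ℤ) ∣ ((∏ i, (a i * n + b i) : ℕ) : ℤ)) =
      (range p).filter fun n => ∃ i, p ∣ a i * n + b i :=
    filter_congr fun n _ => dvd_iff a b hp.2 n
  have h2 : (((range p).filter (fun n : ℕ => (p : ℤ) ∣ ((∏ i, (a i * n + b i) : ℕ) : ℤ))).card : ℝ) =
      (((range p).filter fun n => ∃ i, p ∣ a i * n + b i).card : ℝ) := by
    rw [h1]
  convert congrArg (fun z : ℝ => 1 - z / p) h2 using 3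

/-- The product `V` is positive. -/
theorem density_pos {k : ℕ} {a b : Fin k → ℕ} (h : Admissible a b) (y : ℕ) : 0 < density a b y := by
  classical
  apply prod_pos
  intro p hp
  rw [mem_filter] at hp
  have hp0 : (0 : ℝ) < p := by exact_mod_cast hp.2.pos
  rw [sub_pos, div_lt_one hp0, Nat.cast_lt]
  unfold omega
  obtain ⟨n, hn⟩ := h.2 p hp.2
  refine lt_of_lt_of_le (card_lt_card ((filter_ssubset).2 ⟨n % p, mem_range.2 (Nat.mod_lt _ hp.2.pos), ?_⟩))
    (card_range p).le
  rintro ⟨i, hi⟩
  apply hn i
  have h1 : a i * n + b i ≡ a i * (n % p) + b i [MOD p] :=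
    Nat.ModEq.add_right _ (Nat.ModEq.mul_left _ (Nat.mod_modEq n p).symm)
  exact (Nat.modEq_zero_iff_dvd).1 (h1.trans ((Nat.modEq_zero_iff_dvd).2 hi))

/-- **Almost prime k-tuplets, uniformly in the linear forms, at integers with restricted digits.** -/
theorem result (k : ℕ) (hk : 1 ≤ k) (E : ℕ) :
    ∃ c : ℝ, 0 < c ∧ ∃ r₀ : ℕ, 2 ≤ r₀ ∧ ∀ r : ℕ, r₀ ≤ r → ∀ g : ℕ, 2 ≤ g → ∃ κ C : ℝ, 0 < κ ∧ 0 < C ∧
      ∀ᶠ K : ℕ in atTop, ∀ a b : Fin k → ℕ, Admissible a b → (∀ i, a i ≤ g ^ (E * K)) →
        ∀ A : ℕ → Finset ℕ, (∀ i < K, A i ⊆ range g) → (g : ℝ) ^ K ≤ Real.exp (c * K) * choices K A →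
          0 < density a b (g ^ K) ∧
          ((∃ d ∈ A 0, ∀ i, (a i * d + b i).Coprime g) →
            κ * density a b (g ^ K) * choices K A ≤
              count g K A fun n => ∀ i, AlmostPrime (g ^ K) r (a i * n + b i)) ∧
          (count g K A (fun n => ∀ i, (a i * n + b i).Prime) : ℝ) ≤
            C * density a b (g ^ K) * choices K A := by
  classical
  obtain ⟨c, hc, r0, hr0, h⟩ := Pool.Agent.Y816.PD.uni_fun k (k * (E + 1)) hk
  refine ⟨c, hc, r0, hr0, fun r hr g hg => ?_⟩
  obtain ⟨κ, C, hκ, hC, h1⟩ := h r hr g hg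
  refine ⟨κ, C, hκ, hC, ?_⟩
  filter_upwards [h1, eventually_ge_atTop (r + 1)] with K hK hK2
  intro a b hadm ha A hA hprod
  obtain ⟨G, hG⟩ : ∃ G : ℕ → ℤ, G = fun n : ℕ => ((∏ i, (a i * n + b i) : ℕ) : ℤ) := ⟨_, rfl⟩
  have hpos : ∀ n i, 0 < a i * n + b i := fun n i => by
    have := (hadm.1 i).1
    omega
  have hGpos : ∀ n, ∏ i, (a i * n + b i) ≠ 0 := fun n => (prod_pos fun i _ => hpos n i).ne'
  obtain ⟨hlow, hup⟩ := hK G ⟨∏ i, (Polynomial.C (a i : ℤ) * Polynomial.X + Polynomial.C (b i : ℤ)), by
      refine (Polynomial.natDegree_prod_le _ _).trans ?_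
      refine (sum_le_card_nsmul _ _ 1 fun i _ => Polynomial.natDegree_linear_le).trans ?_
      simp, fun n => by rw [hG]; simp [Polynomial.eval_prod]⟩
    (fun p hp => by
      obtain ⟨n, hn⟩ := hadm.2 p hp
      refine ⟨n, ?_⟩
      rw [hG]
      simp only
      rw [dvd_iff a b hp]
      rintro ⟨i, hi⟩
      exact hn i hi)
    (fun n hn => by
      rw [hG]
      simp only
      rw [Int.natAbs_natCast]
      have h2 : ∀ i : Fin k, a i * n + b i ≤ g ^ ((E + 1) * K) := by
        intro i
        calc a i * n + b i ≤ a i * n + a i := Nat.add_le_add_left (hadm.1 i).2.le _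
          _ = a i * (n + 1) := by ring
          _ ≤ g ^ (E * K) * g ^ K := Nat.mul_le_mul (ha i) hn
          _ = g ^ ((E + 1) * K) := by rw [← pow_add]; congr 1; ring
      calc ∏ i, (a i * n + b i) ≤ ∏ _i : Fin k, g ^ ((E + 1) * K) := prod_le_prod' fun i _ => h2 i
        _ = g ^ (k * (E + 1) * K) := by
          rw [prod_const, card_univ, Fintype.card_fin, ← pow_mul]
          congr 1
          ring)
    A hA (by rw [← choices_eq]; exact hprod)
  rw [hG, density_eq, ← choices_eq, ← hG] at hlow hup
  refine ⟨density_pos hadm _, ?_, ?_⟩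
  · rintro ⟨d, hd, hd1⟩
    have h3 := hlow ⟨d, hd, by
      rw [hG]
      simp only
      rw [Int.natAbs_natCast]
      exact Nat.Coprime.prod_left fun i _ => hd1 i⟩
    rw [mul_right_comm]
    refine h3.trans (Nat.cast_le.2 ?_)
    refine ND_le_count fun n hn1 hn => ?_
    obtain ⟨hn3, hn4⟩ := hn
    rw [hG] at hn3 hn4
    simp only at hn3 hn4
    rw [Int.natAbs_natCast] at hn4
    refine fun i => ⟨fun p hp hpn => hn3 p hp ((dvd_iff a b hp n).2 ⟨i, hpn⟩), ?_⟩
    exact (Nat.primeFactorsList_sublist_of_dvd (dvd_prod_of_mem _ (mem_univ i)) (hGpos n)).length_le.trans hn4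
  · rw [mul_right_comm]
    refine le_trans (Nat.cast_le.2 ?_) hup
    refine count_le_ND fun n hn1 hn3 => ?_
    intro p hp hpn
    rw [hG] at hpn
    simp only at hpn
    obtain ⟨i, hi⟩ := (dvd_iff a b hp n).1 hpn
    have h5 : n ≤ p := by
      rw [(Nat.prime_dvd_prime_iff_eq hp (hn3 i)).1 hi]
      have h6 := hadm.1 i
      have h7 : n ≤ a i * n := Nat.le_mul_of_pos_left n (by omega)
      omega
    exact lt_of_le_of_lt h5 (lt_self_pow₀ hp.one_lt (by omega))

end Pool.Agent.Results.MP_746f10_nt.RestrictedDigits
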