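import Pool.Agent.Q25.UReg3

/-!
# The laws of the almost prime values of systems of linear forms, uniformly in the systems

All admissible sets `{a i x + b i}` of `k ≥ 2` linear forms as in the problem with coefficients `a i ≤ X ^ E`. A number
`m` is good if no `a i m + b i` has a prime factor `≤ X ^ (1/r)`. In ALL intervals of length at least `X ^ θ` the numbers
of the good integers in windows follow the Poisson law, the gaps between the good integers are exponentially distributed,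
and almost all elements of an ARBITRARY set of good integers are regular points of this set, all this uniformly in the
systems and in the intervals.
-/

set_option autoImplicit false

namespace Pool.Agent.Results.MP_746f10_nt.UniformLaws

open Finset
open Pool.Agent.Q25.UReg (Good V count pois PoissonLaw GapLaw N RightOrder ConstantDensity badScales Irregular)

/-- admissible sets of `k` linear forms as in the problem, with coefficients `≤ H` -/
structure Admissible {k : ℕ} (H : ℝ) (a b : Fin k → ℤ) : Prop where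
  one_le : ∀ i, 1 ≤ b i
  lt : ∀ i, b i < a i
  height : ∀ i, (a i : ℝ) ≤ H
  distinct : ∀ i j, a i = a j → b i = b j → i = j
  adm : ∀ p : ℕ, p.Prime → ∃ m : ℤ, ∀ i, ¬ (p : ℤ) ∣ a i * m + b i

lemma Admissible.nat {k : ℕ} {H : ℝ} {a b : Fin k → ℤ} (h : Admissible H a b) (p : ℕ) (hp : p.Prime) :
    ∃ m : ℕ, ∀ i, ¬ (p : ℤ) ∣ a i * (m : ℤ) + b i := by
  obtain ⟨m, hm⟩ := h.adm p hp
  have hp0 : (p : ℤ) ≠ 0 := by exact_mod_cast hp.ne_zero
  refine ⟨(m % p).toNat, fun i hi => hm i ?_⟩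
  rw [Int.toNat_of_nonneg (Int.emod_nonneg _ hp0)] at hi
  have h1 : a i * m + b i = (a i * (m % p) + b i) + p * (a i * (m / p)) := by
    have := Int.emod_add_mul_ediv m p
    linear_combination (-(a i)) * this
  rw [h1]
  exact dvd_add hi (dvd_mul_right _ _)

/-- **The laws of the almost prime values of systems of linear forms, uniformly in the systems.** -/
theorem result (k : ℕ) (hk : 2 ≤ k) (E θ : ℝ) (hE : 0 < E) (hθ : 0 < θ) :
    (∀ (l₀ : ℕ) (x₀ ε : ℝ), 0 < ε → ∃ r₀ : ℕ, ∀ r : ℕ, r₀ ≤ r → ∃ X₀ : ℕ, ∀ X : ℕ, X₀ ≤ X →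
      ∀ a b : Fin k → ℤ, Admissible ((X : ℝ) ^ E) a b → ∀ Z Y : ℕ, (X : ℝ) ^ θ ≤ Y →
        PoissonLaw a b r X Z Y x₀ ε ∧ GapLaw a b r X Z Y l₀ x₀ ε) ∧
    ∃ r₀ : ℕ, ∀ r : ℕ, r₀ ≤ r → ∀ ε : ℝ, 0 < ε → ∃ c : ℝ, 0 < c ∧ ∀ δ : ℝ, 0 < δ → ∃ B X₀ : ℕ,
      ∀ X : ℕ, X₀ ≤ X → ∀ a b : Fin k → ℤ, Admissible ((X : ℝ) ^ E) a b →
        ∀ u Y : ℕ, (X : ℝ) ^ θ ≤ Y → Y ≤ X → Y ≤ u → ∀ A : Set ℕ, (∀ m ∈ A, Good a b r X m) →
          (N (Irregular A (V a b r X) c δ B Y) u (u + Y) : ℝ) ≤ ε * (Y * V a b r X) := by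
  have hpos : ∀ (H : ℝ) (a b : Fin k → ℤ), Admissible H a b → ∀ i, 0 < a i := fun H a b h i => by
    have := h.one_le i
    have := h.lt i
    omega
  have hb : ∀ (H : ℝ) (a b : Fin k → ℤ), Admissible H a b → ∀ i, |(b i : ℝ)| ≤ H := fun H a b h i => by
    have h1 := h.one_le i
    have h2 := h.lt i
    rw [abs_of_pos (by exact_mod_cast (by omega : 0 < b i))]
    exact le_trans (by exact_mod_cast h2.le) (h.height i)
  have hne : ∀ (H : ℝ) (a b : Fin k → ℤ), Admissible H a b → ∃ i j, ¬ (a i = a j ∧ b i = b j) := fun H a b h => by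
    refine ⟨⟨0, by omega⟩, ⟨1, by omega⟩, fun h1 => ?_⟩
    exact absurd (congrArg Fin.val (h.distinct _ _ h1.1 h1.2)) (by norm_num)
  constructor
  · intro l₀ x₀ ε hε
    obtain ⟨r₀, _, h⟩ := Pool.Agent.Q25.UReg.lin_laws k E 1 θ hE one_pos hθ l₀ x₀ ε hε
    refine ⟨r₀, fun r hr => ?_⟩
    obtain ⟨X₀, hX₀⟩ := Filter.eventually_atTop.1 (h r hr)
    refine ⟨X₀, fun X hX a b hab Z Y hY => ?_⟩
    refine hX₀ X hX a b (hpos _ a b hab) hab.height (hb _ a b hab) hab.nat (hne _ a b hab) ?_ Z Y hY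
    intro i j t ht _ h1
    have h2 := hab.lt i
    have h3 := hab.one_le j
    have h4 : (1 : ℤ) ≤ t := by exact_mod_cast ht
    have h5 := hpos _ a b hab j
    have h6 := h1.1
    have h7 := h1.2
    nlinarith
  · obtain ⟨r₀, _, h⟩ := Pool.Agent.Q25.UReg.lin_reg k E θ hE hθ
    refine ⟨r₀, fun r hr ε hε => ?_⟩
    obtain ⟨c, hc, h1⟩ := h r hr ε hε
    refine ⟨c, hc, fun δ hδ => ?_⟩
    obtain ⟨B, hB⟩ := h1 δ hδ
    obtain ⟨X₀, hX₀⟩ := Filter.eventually_atTop.1 hB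
    exact ⟨B, X₀, fun X hX a b hab u Y hXY hYX hYu A hA =>
      hX₀ X hX a b (hpos _ a b hab) hab.height (hb _ a b hab) hab.nat (hne _ a b hab) u Y hXY hYX hYu A hA⟩

end Pool.Agent.Results.MP_746f10_nt.UniformLaws
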